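import Pool.Agent.H11.NS.Targets

set_option autoImplicit false

open Pool.Agent.H11.NS

namespace Pool.Agent.H84.NSEJ

variable {F W : Type} [Field F] [AddCommGroup W] [Module F W]

theorem decomp (ω : F) (h3 : ω ^ 3 = 1) (h1 : ω ≠ 1) (hF : (3 : F) ≠ 0)
    (T : Module.End F W) (hT : T ^ 3 = 1) (v : W) :
    ∃ u : Fin 3 → W, v = u 0 + u 1 + u 2 ∧ (∀ x, T (u x) = ω ^ (x : ℕ) • u x) ∧
      ∀ S : Module.End F W, Commute S T → ∀ m : F, S v = m • v → ∀ x, S (u x) = m • u x := by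
  have hw : ω ^ 2 + ω + 1 = 0 := by
    have h : (ω - 1) * (ω ^ 2 + ω + 1) = 0 := by linear_combination h3
    rcases mul_eq_zero.mp h with h | h
    · exact absurd (sub_eq_zero.mp h) h1
    · exact h
  have hT3 : T (T (T v)) = v := by
    have := congrArg (fun S : Module.End F W => S v) hT
    simpa [pow_succ] using this
  have h33 : (3 : F)⁻¹ * 3 = 1 := inv_mul_cancel₀ hF
  refine ⟨fun x => (3 : F)⁻¹ • (v + ω ^ (2 * (x : ℕ)) • T v + ω ^ (x : ℕ) • T (T v)), ?_, ?_, ?_⟩
  · have e : v = ((3 : F)⁻¹ * 3) • v := by rw [h33, one_smul]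
    have a0 : ((0 : Fin 3) : ℕ) = 0 := rfl
    have a1 : ((1 : Fin 3) : ℕ) = 1 := rfl
    have a2 : ((2 : Fin 3) : ℕ) = 2 := rfl
    simp only [a0, a1, a2]
    have c1 : (1 : F) + ω ^ 2 + ω ^ 4 = 0 := by linear_combination (ω ^ 2 - ω + 1) * hw
    have c2 : (1 : F) + ω + ω ^ 2 = 0 := by linear_combination hw
    have key : v + ω ^ (2 * 0) • T v + ω ^ 0 • T (T v) + (v + ω ^ (2 * 1) • T v + ω ^ 1 • T (T v))
        + (v + ω ^ (2 * 2) • T v + ω ^ 2 • T (T v))
        = (3 : F) • v + ((1 : F) + ω ^ 2 + ω ^ 4) • T v + ((1 : F) + ω + ω ^ 2) • T (T v) := by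
      module
    rw [← smul_add, ← smul_add, key, c1, c2, zero_smul, zero_smul, add_zero, add_zero, smul_smul,
      h33, one_smul]
  · intro x
    simp only [map_smul, map_add, hT3]
    have hx : ω ^ (x : ℕ) * ω ^ (2 * (x : ℕ)) = 1 := by
      rw [← pow_add]
      have : (x : ℕ) + 2 * x = 3 * x := by ring
      rw [this, pow_mul, h3, one_pow]
    have hx2 : ω ^ (x : ℕ) * ω ^ (x : ℕ) = ω ^ (2 * (x : ℕ)) := by
      rw [← pow_add]; congr 1; ring
    have key : ω ^ (x : ℕ) • ((3 : F)⁻¹ • (v + ω ^ (2 * (x : ℕ)) • T v + ω ^ (x : ℕ) • T (T v)))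
        = (3 : F)⁻¹ • ((ω ^ (x : ℕ)) • v + (ω ^ (x : ℕ) * ω ^ (2 * (x : ℕ))) • T v +
          (ω ^ (x : ℕ) * ω ^ (x : ℕ)) • T (T v)) := by
      module
    rw [key, hx, hx2, one_smul]
    module
  · intro S hS m hm x
    have hST : ∀ w, S (T w) = T (S w) := fun w =>
      congrArg (fun R : Module.End F W => R w) hS.eq
    simp only [map_smul, map_add, hST, hm]
    module

theorem step (ω : F) (h3 : ω ^ 3 = 1) (h1 : ω ≠ 1) (hF : (3 : F) ≠ 0)
    (T : Module.End F W) (hT : T ^ 3 = 1) (L : List (Module.End F W))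
    (hL : ∀ S ∈ L, Commute S T) (Q : W → Prop) (hQ : ∀ u v, Q u → Q v → Q (u + v))
    (h : ∀ v, (∃ x : Fin 3, T v = ω ^ (x : ℕ) • v) →
      (∀ S ∈ L, ∃ x : Fin 3, S v = ω ^ (x : ℕ) • v) → Q v) :
    ∀ v, (∀ S ∈ L, ∃ x : Fin 3, S v = ω ^ (x : ℕ) • v) → Q v := by
  intro v hv
  obtain ⟨u, hu, hTu, hS⟩ := decomp ω h3 h1 hF T hT v
  have hc : ∀ x, Q (u x) := by
    intro x
    refine h (u x) ⟨x, hTu x⟩ ?_
    intro S hSL
    obtain ⟨y, hy⟩ := hv S hSL
    exact ⟨y, hS S (hL S hSL) _ hy x⟩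
  rw [hu]
  exact hQ _ _ (hQ _ _ (hc 0) (hc 1)) (hc 2)

theorem fin_check : ∀ x0 x1 x2 x3 z : Fin 3, x0 ≠ 0 → x1 ≠ 0 →
    ∃ i j k : Fin 4, i ≠ j ∧ k ≠ i ∧ k ≠ j ∧ (![x0, x1, x2, x3] k) ≠ 0 ∧
      ∃ α β : Fin 3, α ≠ 0 ∧ β ≠ 0 ∧
      (α.val * (![x0, x1, x2, x3] i).val + β.val * (![x0, x1, x2, x3] j).val + z.val) % 3 = 0 := by
  decide +kernel

theorem pf_ej : T_EJ := by
  intro F W _ _ _ ω h3 h1 hF s b hs hb hcomm hcb hyp
  have hQadd : ∀ u v : W, (s 0 (s 1 u) - s 0 u - s 1 u + u = 0) →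
      (s 0 (s 1 v) - s 0 v - s 1 v + v = 0) →
      (s 0 (s 1 (u + v)) - s 0 (u + v) - s 1 (u + v) + (u + v) = 0) := by
    intro u v hu hv
    have e : s 0 (s 1 (u + v)) - s 0 (u + v) - s 1 (u + v) + (u + v)
      = (s 0 (s 1 u) - s 0 u - s 1 u + u) + (s 0 (s 1 v) - s 0 v - s 1 v + v) := by
      simp only [map_add]; abel
    rw [e, hu, hv, add_zero]
  have hbase : ∀ v : W, (∀ S ∈ [s 0, s 1, s 2, s 3, b], ∃ x : Fin 3, S v = ω ^ (x : ℕ) • v) →
      s 0 (s 1 v) - s 0 v - s 1 v + v = 0 := by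
    intro v hv
    obtain ⟨x0, hx0⟩ := hv (s 0) (by simp)
    obtain ⟨x1, hx1⟩ := hv (s 1) (by simp)
    obtain ⟨x2, hx2⟩ := hv (s 2) (by simp)
    obtain ⟨x3, hx3⟩ := hv (s 3) (by simp)
    obtain ⟨z, hz⟩ := hv b (by simp)
    by_cases g0 : x0 = 0
    · subst g0
      have e0 : s 0 v = v := by simpa using hx0
      have e1 : s 0 (s 1 v) = s 1 v := by rw [hx1, map_smul, e0]
      rw [e1, e0]; abel
    by_cases g1 : x1 = 0
    · subst g1
      have e1 : s 1 v = v := by simpa using hx1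
      rw [e1]; abel
    obtain ⟨i, j, k, hij, hki, hkj, hk0, α, β, hα, hβ, hsum⟩ := fin_check x0 x1 x2 x3 z g0 g1
    have hall : ∀ i : Fin 4, s i v = ω ^ ((![x0, x1, x2, x3] i : Fin 3) : ℕ) • v := by
      intro i
      fin_cases i
      · exact hx0
      · exact hx1
      · exact hx2
      · exact hx3
    have hpow : ∀ (i : Fin 4) (n : ℕ) (w : W) (c : F), w = c • v →
        (s i ^ n) w = (ω ^ (n * ((![x0, x1, x2, x3] i : Fin 3) : ℕ))) • w := by
      intro i n
      induction n with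
      | zero => intro w c hw; simp
      | succ n ih =>
        intro w c hw
        rw [pow_succ, Module.End.mul_apply]
        have e1 : s i w = ω ^ ((![x0, x1, x2, x3] i : Fin 3) : ℕ) • w := by
          rw [hw, map_smul, hall i, smul_comm]
        rw [e1, map_smul, ih w c hw, smul_smul, ← pow_add]
        congr 2
        ring
    have hα' : (α : ℕ) = 1 ∨ (α : ℕ) = 2 := by
      have := α.isLt
      have h0 : (α : ℕ) ≠ 0 := fun h => hα (Fin.ext h)
      omega
    have hβ' : (β : ℕ) = 1 ∨ (β : ℕ) = 2 := by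
      have := β.isLt
      have h0 : (β : ℕ) ≠ 0 := fun h => hβ (Fin.ext h)
      omega
    have hfix : (s i ^ (α : ℕ)) ((s j ^ (β : ℕ)) (b v)) = v := by
      rw [hpow j β (b v) _ hz, map_smul, hpow i α (b v) _ hz, hz, smul_smul, smul_smul,
        ← pow_add, ← pow_add]
      obtain ⟨q, hq⟩ := Nat.dvd_of_mod_eq_zero hsum
      have e : (β : ℕ) * ((![x0, x1, x2, x3] j : Fin 3) : ℕ) +
          ((α : ℕ) * ((![x0, x1, x2, x3] i : Fin 3) : ℕ)) + (z : ℕ) = 3 * q := by
        rw [← hq]; ring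
      rw [e, pow_mul, h3, one_pow, one_smul]
    have hk := hyp i j k hij hki hkj α β hα' hβ' v hfix
    rw [hall k] at hk
    have hv0 : v = 0 := by
      have hne : ω ^ ((![x0, x1, x2, x3] k : Fin 3) : ℕ) - 1 ≠ 0 := by
        intro hcon
        have hc1 : ω ^ ((![x0, x1, x2, x3] k : Fin 3) : ℕ) = 1 := sub_eq_zero.mp hcon
        have hlt := (![x0, x1, x2, x3] k : Fin 3).isLt
        have hne0 : ((![x0, x1, x2, x3] k : Fin 3) : ℕ) ≠ 0 := fun h => hk0 (Fin.ext h)
        have hcase : ((![x0, x1, x2, x3] k : Fin 3) : ℕ) = 1 ∨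
            ((![x0, x1, x2, x3] k : Fin 3) : ℕ) = 2 := by omega
        rcases hcase with hh | hh
        · rw [hh, pow_one] at hc1; exact h1 hc1
        · rw [hh] at hc1
          apply h1
          have : ω ^ 3 = ω ^ 2 * ω := by ring
          rw [this, hc1, one_mul] at h3
          exact h3
      have hz0 : (ω ^ ((![x0, x1, x2, x3] k : Fin 3) : ℕ) - 1) • v = 0 := by
        rw [sub_smul, one_smul, hk, sub_self]
      exact (smul_eq_zero.mp hz0).resolve_left hne
    rw [hv0]; simp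
  have c4 := step ω h3 h1 hF (s 0) (hs 0) [s 1, s 2, s 3, b] (by
      intro S hS
      simp only [List.mem_cons, List.not_mem_nil, or_false] at hS
      rcases hS with rfl | rfl | rfl | rfl
      · exact hcomm 1 0
      · exact hcomm 2 0
      · exact hcomm 3 0
      · exact (hcb 0).symm) (fun v => s 0 (s 1 v) - s 0 v - s 1 v + v = 0) hQadd (by
      intro v hv0 hv
      refine hbase v ?_
      intro S hS
      rcases List.mem_cons.mp hS with rfl | hS
      · exact hv0
      · exact hv S hS)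
  have c3 := step ω h3 h1 hF (s 1) (hs 1) [s 2, s 3, b] (by
      intro S hS
      simp only [List.mem_cons, List.not_mem_nil, or_false] at hS
      rcases hS with rfl | rfl | rfl
      · exact hcomm 2 1
      · exact hcomm 3 1
      · exact (hcb 1).symm) (fun v => s 0 (s 1 v) - s 0 v - s 1 v + v = 0) hQadd (by
      intro v hv0 hv
      refine c4 v ?_
      intro S hS
      rcases List.mem_cons.mp hS with rfl | hS
      · exact hv0
      · exact hv S hS)
  have c2 := step ω h3 h1 hF (s 2) (hs 2) [s 3, b] (by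
      intro S hS
      simp only [List.mem_cons, List.not_mem_nil, or_false] at hS
      rcases hS with rfl | rfl
      · exact hcomm 3 2
      · exact (hcb 2).symm) (fun v => s 0 (s 1 v) - s 0 v - s 1 v + v = 0) hQadd (by
      intro v hv0 hv
      refine c3 v ?_
      intro S hS
      rcases List.mem_cons.mp hS with rfl | hS
      · exact hv0
      · exact hv S hS)
  have c1 := step ω h3 h1 hF (s 3) (hs 3) [b] (by
      intro S hS
      simp only [List.mem_cons, List.not_mem_nil, or_false] at hS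
      rcases hS with rfl
      exact (hcb 3).symm) (fun v => s 0 (s 1 v) - s 0 v - s 1 v + v = 0) hQadd (by
      intro v hv0 hv
      refine c2 v ?_
      intro S hS
      rcases List.mem_cons.mp hS with rfl | hS
      · exact hv0
      · exact hv S hS)
  have c0 := step ω h3 h1 hF b hb [] (by intro S hS; simp at hS)
      (fun v => s 0 (s 1 v) - s 0 v - s 1 v + v = 0) hQadd (by
      intro v hv0 hv
      refine c1 v ?_
      intro S hS
      rcases List.mem_cons.mp hS with rfl | hS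
      · exact hv0
      · simp at hS)
  intro v
  exact c0 v (by intro S hS; simp at hS)

end Pool.Agent.H84.NSEJ
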